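import Pool.Agent.PW.StmtsA

set_option autoImplicit false

/-!
# Squad PW, row LIN (helper47): linear algebra of contractions
-/

namespace Pool.Agent.PW.H47

theorem lin : LinStmt := by
  classical
  intro E X _ _ _ 𝒩 ι Θ _ v H hv
  let L : (ι → E) →ₗ[E] X := ∑ t, (LinearMap.proj t : (ι → E) →ₗ[E] E).smulRight (H t)
  have hL : ∀ w, L w = ∑ t, w t • H t := by
    intro w
    simp only [L, LinearMap.sum_apply, LinearMap.smulRight_apply, LinearMap.proj_apply]
  let W : Submodule E (ι → E) := Submodule.span E (Set.range fun θ => fun t => v t θ)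
  obtain ⟨W', hW'⟩ := Submodule.exists_isCompl W
  obtain ⟨P, hP1, hP2⟩ : ∃ P : (ι → E) →ₗ[E] (ι → E), (∀ w, P w ∈ W) ∧ ∀ w ∈ W, P w = w := by
    obtain ⟨f, hf⟩ := (W.subtype).exists_leftInverse_of_injective
      (LinearMap.ker_eq_bot.2 Subtype.coe_injective)
    refine ⟨W.subtype.comp f, fun w => (f w).2, fun w hw => ?_⟩
    have h1 := LinearMap.congr_fun hf ⟨w, hw⟩
    have h2 : f w = ⟨w, hw⟩ := h1
    show ((f w : W) : ι → E) = w
    rw [h2]
  have hLW : ∀ w ∈ W, L w ∈ 𝒩 := by
    intro w hw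
    have h1 : W ≤ 𝒩.comap L := by
      refine Submodule.span_le.2 ?_
      rintro _ ⟨θ, rfl⟩
      show L (fun t => v t θ) ∈ 𝒩
      rw [hL]
      exact hv θ
    exact h1 hw
  let Q : (ι → E) →ₗ[E] (ι → E) := LinearMap.id - P
  let e := Fintype.equivFin ι
  refine ⟨fun t => L (P (Pi.single t 1)), Fintype.card ι,
    fun l t => Q (Pi.single t 1) (e.symm l), fun l => H (e.symm l), ?_, ?_, ?_⟩
  · intro t
    exact hLW _ (hP1 _)
  · intro l θ
    have h1 : Q (fun t => v t θ) = 0 := by
      show (fun t => v t θ) - P (fun t => v t θ) = 0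
      rw [hP2 _ (Submodule.subset_span ⟨θ, rfl⟩), sub_self]
    have h2 : (fun t => v t θ) = ∑ t, v t θ • (Pi.single t (1 : E) : ι → E) := by
      funext s
      rw [Finset.sum_apply]
      simp [Pi.single_apply]
    rw [h2, map_sum] at h1
    have h3 := congrFun h1 (e.symm l)
    rw [Finset.sum_apply] at h3
    simp only [map_smul, Pi.smul_apply, smul_eq_mul, Pi.zero_apply] at h3
    rw [← h3]
    exact Finset.sum_congr rfl fun t _ => mul_comm _ _
  · intro t
    have h1 : L (Q (Pi.single t 1)) = ∑ l, Q (Pi.single t 1) (e.symm l) • H (e.symm l) := by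
      rw [hL]
      exact (Equiv.sum_comp e.symm (fun s => Q (Pi.single t 1) s • H s)).symm
    rw [← h1, ← map_add]
    have h2 : P (Pi.single t 1) + Q (Pi.single t 1) = (Pi.single t 1 : ι → E) := by
      show P (Pi.single t 1) + (Pi.single t 1 - P (Pi.single t 1)) = _
      rw [add_sub_cancel]
    rw [h2, hL, Finset.sum_eq_single t]
    · rw [Pi.single_eq_same, one_smul]
    · intro s _ hs
      rw [Pi.single_eq_of_ne hs, zero_smul]
    · intro h
      exact absurd (Finset.mem_univ t) h

end Pool.Agent.PW.H47
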